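import Pool.Agent.H64.EK.Targets

/-!
# The calculus for the opposite parity
-/

set_option autoImplicit false
set_option linter.unusedSectionVars false

open Matrix Pool.Agent.H64.CC Pool.Agent.H2.NL Pool.Agent.H2.KM Pool.Agent.H64.EV Pool.Agent.H64.EK

namespace Pool.Agent.H10.EK

section
variable {K : Type} [Field K] {I : Type}

theorem fl_sg_pow (p : Bool) (i : ℕ) : sg K p ^ i * sg K p ^ i = 1 := by
  rw [← mul_pow, sg_mul_self, one_pow]

theorem fl_sg_even (p : Bool) (i : ℕ) (h : Even i) : sg K p ^ i = 1 := by
  obtain ⟨k, rfl⟩ := h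
  rw [pow_add, fl_sg_pow]

theorem fl_sg_odd (p : Bool) (i : ℕ) (h : Odd i) : sg K p ^ i = sg K p := by
  obtain ⟨k, rfl⟩ := h
  rw [pow_succ, fl_sg_even p (2 * k) (even_two_mul k), one_mul]

theorem fl_sq (o : I → Bool) : ∀ (i : ℕ) (w : List I), twl K o i w * twl K o i w = 1
  | _, [] => one_mul 1
  | i, a :: w => by
    calc twl K o i (a :: w) * twl K o i (a :: w)
        = (sg K (o a) ^ i * sg K (o a) ^ i) * (twl K o (i + 1) w * twl K o (i + 1) w) := by
          simp only [twl]; ring
      _ = 1 := by rw [fl_sg_pow, fl_sq o (i + 1) w, one_mul]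

theorem fl_append (o : I → Bool) : ∀ (i : ℕ) (u v : List I),
    twl K o i (u ++ v) = twl K o i u * twl K o (i + u.length) v
  | i, [], v => by simp [twl]
  | i, a :: u, v => by
    rw [List.cons_append, List.length_cons, show i + (u.length + 1) = i + 1 + u.length by omega]
    simp only [twl]
    rw [fl_append o (i + 1) u v, mul_assoc]

theorem fl_even (o : I → Bool) (k : ℕ) : ∀ (i : ℕ) (v : List I),
    twl K o (i + 2 * k) v = twl K o i v
  | _, [] => rfl
  | i, a :: v => by
    simp only [twl]
    rw [show i + 2 * k + 1 = i + 1 + 2 * k by omega, fl_even o k (i + 1) v, pow_add,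
      fl_sg_even (K := K) (o a) (2 * k) (even_two_mul k), mul_one]

theorem fl_ks (p q : Bool) : ks K (!p) (!q) * sg K q = -(ks K p q * sg K p) := by
  cases p <;> cases q <;> simp [ks, sg]

theorem fl_odds (o : I → Bool) : ∀ w : List I, odds (fo o) w + odds o w = w.length
  | [] => rfl
  | a :: w => by
    have h := fl_odds o w
    have hf : fo o a = !o a := rfl
    simp only [odds, List.length_cons] at h ⊢
    cases ha : o a
    · rw [ha] at hf
      rw [List.filter_cons_of_pos (by rw [hf]; rfl), List.filter_cons_of_neg (by rw [ha]; decide),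
        List.length_cons]
      omega
    · rw [ha] at hf
      rw [List.filter_cons_of_neg (by rw [hf]; decide), List.filter_cons_of_pos ha,
        List.length_cons]
      omega

end

section
variable {K : Type} [Field K] [CharZero K] {I : Type} [Fintype I] [DecidableEq I]
  (o : I → Bool) (η ω : Matrix I I K) (A : ℕ → Submodule ℚ (List I → K))

theorem fl_mem (k : ℕ) (t : List I → K) :
    t ∈ fA o A k ↔ (fun w => twl K o 0 w * t w) ∈ A k := Iff.rfl

theorem fl_sw (j : ℕ) (t : List I → K) (w : List I) (h : j + 2 ≤ w.length) :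
    twl K o 0 w * sw (fo o) j t w = -sw o j (fun w => twl K o 0 w * t w) w := by
  obtain ⟨α, a, b, β, rfl, rfl⟩ := exists_split j w h
  rw [sw_append, sw_append, fl_append, fl_append]
  simp only [twl, fo, Nat.zero_add]
  have h1 := fl_ks (K := K) (o a) (o b)
  calc twl K o 0 α * (sg K (o a) ^ α.length * (sg K (o b) ^ (α.length + 1) *
        twl K o (α.length + 1 + 1) β)) * (ks K (!o a) (!o b) * t (α ++ b :: a :: β))
      = (ks K (!o a) (!o b) * sg K (o b)) * (twl K o 0 α * sg K (o a) ^ α.length *
        sg K (o b) ^ α.length * twl K o (α.length + 1 + 1) β * t (α ++ b :: a :: β)) := by ring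
    _ = -(ks K (o a) (o b) * sg K (o a)) * (twl K o 0 α * sg K (o a) ^ α.length *
        sg K (o b) ^ α.length * twl K o (α.length + 1 + 1) β * t (α ++ b :: a :: β)) := by rw [h1]
    _ = _ := by ring

theorem fl_con (hη : ∀ a b, η a b ≠ 0 → o a = o b) (j : ℕ) (t : List I → K) (w : List I)
    (h : j ≤ w.length) :
    twl K o 0 w * con (feta o η) j t w = con η j (fun w => twl K o 0 w * t w) w := by
  obtain ⟨α, β, rfl, rfl⟩ := exists_split' j w h
  rw [con_append, con_append, Finset.mul_sum]
  refine Finset.sum_congr rfl fun a _ => ?_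
  rw [Finset.mul_sum]
  refine Finset.sum_congr rfl fun b _ => ?_
  simp only [feta, Matrix.of_apply]
  by_cases h0 : η a b = 0
  · rw [h0]; ring
  · have e := hη a b h0
    rw [fl_append, fl_append]
    simp only [twl, Nat.zero_add]
    rw [← e, show α.length + 1 + 1 = α.length + 2 * 1 by omega, fl_even o 1 α.length β]
    have h1 := fl_sg_pow (K := K) (o a) α.length
    calc twl K o 0 α * twl K o α.length β * (sg K (o a) * η a b * t (α ++ a :: b :: β))
        = (sg K (o a) ^ α.length * sg K (o a) ^ α.length) * (twl K o 0 α * twl K o α.length β *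
          (sg K (o a) * η a b * t (α ++ a :: b :: β))) := by rw [h1, one_mul]
      _ = _ := by ring

theorem fl_calc (hη : ∀ a b, η a b ≠ 0 → o a = o b) (C : Calc o η ω A) :
    Calc (fo o) (feta o η) (fom o ω) (fA o A) where
  congr := by
    intro k t t' ht h
    rw [fl_mem] at ht ⊢
    exact C.congr k _ _ ht fun w hw => by
      show twl K o 0 w * t' w = twl K o 0 w * t w
      rw [h w hw]
  one := by
    rw [fl_mem]
    refine C.congr 0 _ _ C.one fun w hw => ?_
    have : w = [] := List.length_eq_zero_iff.1 (by simpa using hw)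
    subst this
    simp [twl]
  om := by
    rw [fl_mem]
    refine C.congr 1 _ _ C.om fun w hw => ?_
    match w, hw with
    | [a, b], _ =>
      have h := sg_mul_self K (o b)
      simp only [twl, two, fom, Matrix.of_apply, pow_zero, one_mul, Nat.zero_add, pow_one, mul_one]
      calc sg K (o b) * (ω a b * sg K (o b)) = ω a b * (sg K (o b) * sg K (o b)) := by ring
        _ = ω a b := by rw [h, mul_one]
  tp := by
    intro k k' t t' ht ht'
    rw [fl_mem] at ht ht' ⊢
    refine C.congr (k + k') _ _ (C.tp k k' _ _ ht ht') fun w hw => ?_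
    simp only [tp]
    have h1 : twl K o 0 w = twl K o 0 (w.take (2 * k)) * twl K o 0 (w.drop (2 * k)) := by
      have h2 := fl_append (K := K) o 0 (w.take (2 * k)) (w.drop (2 * k))
      rw [List.take_append_drop, List.length_take, min_eq_left (by omega), fl_even] at h2
      exact h2
    rw [h1]
    ring
  sw := by
    intro k j t ht hj
    rw [fl_mem] at ht ⊢
    refine C.congr k _ _ ((A k).neg_mem (C.sw k j _ ht hj)) fun w hw => ?_
    rw [fl_sw o j t w (by omega)]
    rfl
  con := by
    intro k j t ht hj
    rw [fl_mem] at ht ⊢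
    refine C.congr k _ _ (C.con k j _ ht hj) fun w hw => ?_
    exact fl_con o η hη j t w (by omega)
  even := by
    intro k t w ht hw h0
    rw [fl_mem] at ht
    have h1 : twl K o 0 w ≠ 0 := fun h => by
      have := fl_sq (K := K) o 0 w
      rw [h, zero_mul] at this
      exact one_ne_zero this.symm
    have h2 := C.even k _ w ht hw (mul_ne_zero h1 h0)
    have h3 := fl_odds o w
    rw [Nat.even_iff] at h2 ⊢
    omega

theorem fl_zip (hη : ∀ a b, η a b ≠ 0 → o a = o b) : ∀ (y u : List I) (m s : ℕ),
    y.length = u.length → Even (m + y.length + s) →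
    (List.zipWith (fun a b => feta o η a b) y u).prod =
      twl K o m y.reverse * (List.zipWith (fun a b => η a b) y u).prod * twl K o s u
  | [], [], _, _, _, _ => by simp [twl]
  | a :: y, b :: u, m, s, hl, he => by
    have hl' : y.length = u.length := by simpa using hl
    have he' : Even (m + y.length + (s + 1)) := by
      rw [List.length_cons] at he
      rw [Nat.even_iff] at he ⊢
      omega
    have ih := fl_zip hη y u m (s + 1) hl' he'
    rw [List.zipWith_cons_cons, List.zipWith_cons_cons, List.prod_cons, List.prod_cons,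
      List.reverse_cons, fl_append, ih]
    simp only [twl, feta, Matrix.of_apply, List.length_reverse]
    by_cases h0 : η a b = 0
    · rw [h0]; ring
    · have e := hη a b h0
      rw [← e]
      have h1 : sg K (o a) ^ (m + y.length) * sg K (o a) ^ s = sg K (o a) := by
        rw [← pow_add]
        refine fl_sg_odd _ _ ?_
        rw [Nat.even_iff] at he'
        rw [Nat.odd_iff]
        omega
      calc sg K (o a) * η a b * (twl K o m y.reverse *
            (List.zipWith (fun a b => η a b) y u).prod * twl K o (s + 1) u)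
          = (sg K (o a) ^ (m + y.length) * sg K (o a) ^ s) * (η a b * (twl K o m y.reverse *
            (List.zipWith (fun a b => η a b) y u).prod * twl K o (s + 1) u)) := by rw [h1]; ring
        _ = _ := by ring

theorem fl_op (hη : ∀ a b, η a b ≠ 0 → o a = o b) (n : ℕ) (t : List I → K) :
    op (feta o η) n t =
    Matrix.diagonal (fun u : List.Vector I n => twl K o 0 u.1) *
      op η n (fun w => twl K o 0 w * t w) *
    Matrix.diagonal (fun u : List.Vector I n => twl K o 0 u.1) := by
  ext u u'
  rw [Matrix.mul_diagonal, Matrix.diagonal_mul]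
  simp only [op, Matrix.of_apply, opw]
  rw [Finset.mul_sum, Finset.sum_mul]
  refine Finset.sum_congr rfl fun v _ => ?_
  have hz := fl_zip o η hη v.1.reverse u'.1 n 0
    (by rw [List.length_reverse, v.2, u'.2]) (by rw [List.length_reverse, v.2]; exact ⟨n, by omega⟩)
  rw [List.reverse_reverse] at hz
  rw [hz, fl_append, u.2, Nat.zero_add]
  have h1 := fl_sq (K := K) o 0 u.1
  calc t (u.1 ++ v.1) * (twl K o n v.1 * (List.zipWith (fun a b => η a b) v.1.reverse u'.1).prod *
        twl K o 0 u'.1)
      = (twl K o 0 u.1 * twl K o 0 u.1) * (t (u.1 ++ v.1) * (twl K o n v.1 *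
        (List.zipWith (fun a b => η a b) v.1.reverse u'.1).prod * twl K o 0 u'.1)) := by
        rw [h1, one_mul]
    _ = _ := by ring

end

theorem pf_FLP : T_FLP := by
  intro K _ _ I _ _ o η ω A hη C
  exact ⟨fl_calc o η ω A hη C, fun n t => fl_op o η hη n t⟩

end Pool.Agent.H10.EK
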