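import Pool.Agent.H64.EK.Targets

/-!
# The sums over permutations and the opposite parity
-/

set_option autoImplicit false

open Matrix Pool.Agent.H64.CC Pool.Agent.H2.NL Pool.Agent.H2.KM Pool.Agent.H64.EV Pool.Agent.H64.EK

namespace Pool.Agent.H10.EK

section
variable {K : Type} [Field K] {I J : Type}

theorem xs_sg_pow (p : Bool) (i : ℕ) : sg K p ^ i * sg K p ^ i = 1 := by
  rw [← mul_pow, sg_mul_self, one_pow]

theorem xs_twl_sq (o : I → Bool) : ∀ (i : ℕ) (w : List I), twl K o i w * twl K o i w = 1
  | _, [] => one_mul 1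
  | i, a :: w => by
    calc twl K o i (a :: w) * twl K o i (a :: w)
        = (sg K (o a) ^ i * sg K (o a) ^ i) * (twl K o (i + 1) w * twl K o (i + 1) w) := by
          simp only [twl]; ring
      _ = 1 := by rw [xs_sg_pow, xs_twl_sq o (i + 1) w, one_mul]

theorem xs_ks (p q : Bool) : -ks K p q * sg K q = ks K (!p) (!q) * sg K p := by
  cases p <;> cases q <;> simp [ks, sg]

theorem xs_selz_one (o : I → Bool) : ∀ v : List I, selz (1 : K) o v = sel K o v
  | [] => rfl
  | b :: v => by
    simp only [selz, sel, xs_selz_one o v, one_mul]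

theorem xs_selz (o : I → Bool) : ∀ (v : List I) (i : ℕ), selz (-1 : K) o v =
    (sel K (fo o) v).map fun x =>
      (x.1 * twl K o i v * twl K o (i + 1) x.2.2 * sg K (o x.2.1) ^ i, x.2.1, x.2.2)
  | [], _ => rfl
  | b :: v, i => by
    simp only [selz, sel, List.map_cons, List.map_map]
    congr 1
    · congr 1
      calc (1 : K) = (sg K (o b) ^ i * sg K (o b) ^ i) *
            (twl K o (i + 1) v * twl K o (i + 1) v) := by
            rw [xs_sg_pow, xs_twl_sq, one_mul]
        _ = _ := by simp only [twl]; ring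
    · rw [xs_selz o v (i + 1), List.map_map]
      refine List.map_congr_left fun x _ => ?_
      simp only [Function.comp]
      congr 1
      have h1 := xs_ks (K := K) (o b) (o x.2.1)
      have h2 := xs_sg_pow (K := K) (o b) i
      simp only [fo, twl]
      calc -1 * ks K (o b) (o x.2.1) * (x.1 * twl K o (i + 1) v * twl K o (i + 1 + 1) x.2.2 *
            sg K (o x.2.1) ^ (i + 1))
          = (-ks K (o b) (o x.2.1) * sg K (o x.2.1)) * (x.1 * twl K o (i + 1) v *
            twl K o (i + 1 + 1) x.2.2 * sg K (o x.2.1) ^ i) := by ring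
        _ = (ks K (!o b) (!o x.2.1) * sg K (o b)) * (x.1 * twl K o (i + 1) v *
            twl K o (i + 1 + 1) x.2.2 * sg K (o x.2.1) ^ i) *
            (sg K (o b) ^ i * sg K (o b) ^ i) := by rw [h1, h2, mul_one]
        _ = _ := by ring

theorem xs_one (o : J → Bool) (f : Matrix I J K) : ∀ (u : List I) (v : List J),
    xp 1 o f u v = sp o f u v
  | [], [] => rfl
  | [], _ :: _ => rfl
  | a :: u, v => by
    simp only [xp, sp, xs_selz_one, xs_one o f u]

theorem xs_neg (o' : I → Bool) (o : J → Bool) (f : Matrix I J K)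
    (hf : ∀ a b, f a b ≠ 0 → o' a = o b) : ∀ (u : List I) (v : List J) (i : ℕ),
    xp (-1) o f u v = twl K o' i u * sp (fo o) f u v * twl K o i v
  | [], [], _ => by simp [xp, sp, twl]
  | [], _ :: _, _ => by simp [xp, sp]
  | a :: u, v, i => by
    have hi : ∀ c, sg K (o c) ^ i * f a c = sg K (o' a) ^ i * f a c := by
      intro c
      by_cases h : f a c = 0
      · rw [h, mul_zero, mul_zero]
      · rw [hf a c h]
    have e : xp (-1) o f (a :: u) v = ((sel K (fo o) v).map fun x =>
        (twl K o' i (a :: u) * twl K o i v) * (x.1 * f a x.2.1 * sp (fo o) f u x.2.2)).sum := by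
      simp only [xp]
      rw [xs_selz o v i, List.map_map]
      refine congrArg List.sum (List.map_congr_left fun x _ => ?_)
      simp only [Function.comp]
      rw [xs_neg o' o f hf u x.2.2 (i + 1)]
      have h2 := xs_twl_sq (K := K) o (i + 1) x.2.2
      have h3 := hi x.2.1
      simp only [twl]
      calc x.1 * twl K o i v * twl K o (i + 1) x.2.2 * sg K (o x.2.1) ^ i * f a x.2.1 *
            (twl K o' (i + 1) u * sp (fo o) f u x.2.2 * twl K o (i + 1) x.2.2)
          = (twl K o (i + 1) x.2.2 * twl K o (i + 1) x.2.2) * (sg K (o x.2.1) ^ i * f a x.2.1) *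
            (x.1 * twl K o i v * twl K o' (i + 1) u * sp (fo o) f u x.2.2) := by ring
        _ = (sg K (o' a) ^ i * f a x.2.1) *
            (x.1 * twl K o i v * twl K o' (i + 1) u * sp (fo o) f u x.2.2) := by
            rw [h2, h3, one_mul]
        _ = _ := by ring
    rw [e, List.sum_map_mul_left]
    simp only [sp]
    ring

end

theorem pf_XPS : T_XPS := by
  intro K _ I J o' o f hf u v
  exact ⟨xs_one o f u v, xs_neg o' o f hf u v 0⟩

end Pool.Agent.H10.EK
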